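import Mathlib

/-!
# Families of functions `κ → 2` shattering no set of size `θ`: all the cardinal invariants

Let `κ` be an infinite cardinal with `κ ^ (2 ^ θ) = κ` (every finite `θ` is allowed, and for
infinite `θ` there are many such `κ`).  There is an independent family of `2 ^ κ` functions
`κ → 2` such that any pattern on at most `2 ^ θ` members is realised at a point of `κ`.  A family
which shatters no set of size `θ` contains fewer than `2 ^ θ` members of it.  Hence all the ideals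
generated by such families, with unions of any number `μ < 2 ^ κ` of them allowed, have covering
number `2 ^ κ`.
-/

set_option autoImplicit false

namespace Pool.Agent.Results.MP_344d3d_lc.CompleteIdeals

open Cardinal Set

/-- The family `F` of functions `W → 2` shatters `A`: every function on `A` is the restriction of
some member of `F`. -/
def Shatters {W : Type} (F : Set (W → Bool)) (A : Set W) : Prop :=
  ∀ e : W → Bool, ∃ x ∈ F, ∀ a ∈ A, x a = e a

/-- `F` shatters no set of cardinality `θ`. -/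
def NoShatter {W : Type} (θ : Cardinal.{0}) (F : Set (W → Bool)) : Prop :=
  ∀ A : Set W, #A = θ → ¬ Shatters F A

/-- The sets contained in a union of at most `μ` families, each of which, for some `j`, shatters no
set of cardinality `θ j`. -/
def Idl {W J : Type} (θ : J → Cardinal.{0}) (μ : Cardinal.{0}) : Set (Set (W → Bool)) :=
  {F | ∃ G : Set (Set (W → Bool)), #G ≤ μ ∧ (∀ S ∈ G, ∃ j, NoShatter (θ j) S) ∧ F ⊆ ⋃₀ G}

/-- The covering number of `I`. -/
noncomputable def cov {V : Type} (I : Set (Set V)) : Cardinal.{0} :=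
  sInf {c | ∃ A : Set (Set V), A ⊆ I ∧ ⋃₀ A = Set.univ ∧ #A = c}

/-- The additivity of `I`. -/
noncomputable def add {V : Type} (I : Set (Set V)) : Cardinal.{0} :=
  sInf {c | ∃ A : Set (Set V), A ⊆ I ∧ ⋃₀ A ∉ I ∧ #A = c}

/-- The uniformity of `I`. -/
noncomputable def non {V : Type} (I : Set (Set V)) : Cardinal.{0} :=
  sInf {c | ∃ Y : Set V, Y ∉ I ∧ #Y = c}

/-- Codes: finitely or infinitely many points, and a set of traces on these points. -/
abbrev Code (W : Type) {J : Type} (D : J → Type) : Type :=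
  Σ j, (D j × D j → W) × (D j → Option (D j × D j → Bool))

open Classical in
/-- The characteristic function, on codes, of the trace of `X`. -/
noncomputable def ind {W J : Type} (D : J → Type) (X : Set W) (p : Code W D) : Bool :=
  decide (∃ i, p.2.2 i = some fun q => decide (p.2.1 q ∈ X))

theorem card_code (W : Type) [Infinite W] {J : Type} (D : J → Type) (hJ : #J ≤ #W)
    (hD : ∀ j, #W ^ #(D j) = #W) : #(Code W D) ≤ #W := by
  have hW : ℵ₀ ≤ #W := aleph0_le_mk W
  have h1 : ∀ j, #(D j × D j → W) = #W := fun j => by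
    rw [← power_def, mk_prod]
    simp only [lift_id]
    rw [power_mul, hD, hD]
  have h2 : ∀ j, #(Option (D j × D j → Bool)) ≤ #W := fun j => by
    rw [mk_option]
    have : #(D j × D j → Bool) ≤ #W := by
      rw [← h1 j, ← power_def, ← power_def]
      exact power_le_power_right ((mk_bool.trans_le (natCast_lt_aleph0 (n := 2)).le).trans hW)
    exact (add_le_add this (one_le_aleph0.trans hW)).trans_eq (add_eq_self hW)
  have h3 : ∀ j, #((D j × D j → W) × (D j → Option (D j × D j → Bool))) ≤ #W := fun j => by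
    rw [mk_prod, lift_id, lift_id, h1, ← power_def]
    calc #W * #(Option (D j × D j → Bool)) ^ #(D j) ≤ #W * #W ^ #(D j) :=
          mul_le_mul' le_rfl (power_le_power_right (h2 j))
      _ = #W := by rw [hD, mul_eq_self hW]
  rw [mk_sigma]
  calc _ ≤ Cardinal.sum fun _ : J => #W := sum_le_sum _ _ h3
    _ = #J * #W := by rw [sum_const']
    _ ≤ #W * #W := by gcongr
    _ = #W := mul_eq_self hW

/-- An infinite set `W` carries a family of functions indexed by the subsets of `W` any `D j`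
members of which realise all patterns. -/
theorem exists_indep (W : Type) [Infinite W] {J : Type} (D : J → Type) (hJ : #J ≤ #W)
    (hD : ∀ j, #W ^ #(D j) = #W) :
    ∃ x : Set W → (W → Bool), ∀ j (X : D j → Set W), Function.Injective X →
      ∀ e : D j → Bool, ∃ w : W, ∀ i, x (X i) w = e i := by
  classical
  obtain ⟨φ⟩ := (card_code W D hJ hD)
  refine ⟨fun X => Function.extend φ (ind D X) fun _ => false, fun j X hX e => ?_⟩
  have hd : ∀ q : D j × D j, ∃ a : W, q.1 ≠ q.2 → ¬ (a ∈ X q.1 ↔ a ∈ X q.2) := by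
    rintro ⟨i, k⟩
    by_cases hij : i = k
    · exact ⟨Classical.arbitrary W, fun h => absurd hij h⟩
    · by_contra hcon
      push Not at hcon
      exact hij (hX (Set.ext fun a => (hcon a).2))
  choose d hd using hd
  let tr : D j → (D j × D j → Bool) := fun i q => decide (d q ∈ X i)
  have htr : Function.Injective tr := by
    intro i k hik
    by_contra hne
    apply hd (i, k) hne
    have := congrFun hik (i, k)
    simpa [tr] using this
  refine ⟨φ ⟨j, d, fun i => if e i = true then some (tr i) else none⟩, fun i => ?_⟩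
  show Function.extend φ (ind D (X i)) (fun _ => false) (φ _) = e i
  rw [φ.injective.extend_apply]
  have key : (∃ k, (if e k = true then some (tr k) else none) = some (tr i)) ↔ e i = true := by
    constructor
    · rintro ⟨k, hk⟩
      split_ifs at hk with h
      rwa [← htr (Option.some.inj hk)]
    · exact fun h => ⟨i, if_pos h⟩
  unfold ind
  cases h : e i with
  | true => exact decide_eq_true (key.2 h)
  | false =>
    refine decide_eq_false fun hc => ?_
    rw [key.1 hc] at h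
    exact absurd h (by decide)

/-- A family which shatters no set of the size of `T` contains fewer than `2 ^ |T|` members of the
independent family. -/
theorem card_lt {W T : Type} (x : Set W → (W → Bool))
    (hx : ∀ X : (T → Bool) → Set W, Function.Injective X →
      ∀ e : (T → Bool) → Bool, ∃ w : W, ∀ i, x (X i) w = e i)
    (F : Set (W → Bool)) (hF : NoShatter #T F) : #{X | x X ∈ F} < 2 ^ #T := by
  classical
  by_contra hcon
  have h1 : #(T → Bool) ≤ #{X | x X ∈ F} := by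
    rw [← power_def, mk_bool]
    exact not_lt.1 hcon
  obtain ⟨φ⟩ := h1
  have hinj : Function.Injective fun s : T → Bool => ((φ s : {X | x X ∈ F}) : Set W) :=
    fun s s' h => φ.injective (Subtype.ext h)
  have hw := fun t : T => hx _ hinj (fun s => s t)
  choose w hw using hw
  have hwinj : Function.Injective w := by
    intro k l hkl
    by_contra hne
    have h1 := hw k (fun j => decide (j = k))
    have h2 := hw l (fun j => decide (j = k))
    rw [hkl] at h1
    rw [h1] at h2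
    simp at h2
    exact hne h2.symm
  refine hF (range w) (mk_range_eq w hwinj) fun e => ⟨x (φ fun t => e (w t)), (φ _).2, ?_⟩
  rintro _ ⟨t, rfl⟩
  exact hw t _

/-- The independent family. -/
theorem exists_family (W : Type) [Infinite W] (J : Type) (θ : J → Cardinal.{0}) (hJ : #J ≤ #W)
    (hθ : ∀ j, #W ^ ((2 : Cardinal.{0}) ^ θ j) = #W) :
    ∃ X : Set (W → Bool), #X = 2 ^ #W ∧
      ∀ (j : J) (F : Set (W → Bool)), NoShatter (θ j) F → #(F ∩ X : Set (W → Bool)) < 2 ^ θ j := by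
  have hW : ℵ₀ ≤ #W := aleph0_le_mk W
  obtain ⟨x, hx⟩ := exists_indep W (fun o : Option J => o.elim Bool fun j => (θ j).out → Bool)
    (by
      rw [mk_option]
      exact (add_le_add hJ (one_le_aleph0.trans hW)).trans_eq (add_eq_self hW))
    (by
      rintro (_ | j)
      · show #W ^ #Bool = #W
        rw [mk_bool]
        exact_mod_cast power_nat_eq hW (n := 2) (by norm_num)
      · show #W ^ #((θ j).out → Bool) = #W
        rw [← power_def, mk_bool, mk_out, hθ])
  have xinj : Function.Injective x := by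
    intro A B hAB
    by_contra hne
    obtain ⟨w, hw⟩ := hx none (fun b : Bool => if b = true then A else B) (by
      intro b c h
      cases b <;> cases c <;> simp at h ⊢
      · exact hne h.symm
      · exact hne h) id
    have h1 := hw true
    have h2 := hw false
    simp [hAB] at h1 h2
    rw [h1] at h2
    exact absurd h2 (by decide)
  refine ⟨range x, ?_, fun j F hF => ?_⟩
  · rw [mk_range_eq x xinj, mk_set]
  · have h : (F ∩ range x : Set (W → Bool)) = x '' {X | x X ∈ F} := by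
      ext y
      constructor
      · rintro ⟨h1, X, rfl⟩
        exact ⟨X, h1, rfl⟩
      · rintro ⟨X, h1, rfl⟩
        exact ⟨h1, X, rfl⟩
    rw [h, mk_image_eq xinj]
    have := card_lt (T := (θ j).out) x (hx (some j)) F (by rwa [mk_out])
    rwa [mk_out] at this

theorem inter_le {W J : Type} {θ : J → Cardinal.{0}} {μ ν : Cardinal.{0}} {X : Set (W → Bool)}
    (hX : ∀ (j : J) (F : Set (W → Bool)), NoShatter (θ j) F → #(F ∩ X : Set (W → Bool)) < 2 ^ θ j)
    (hν : ∀ j, 2 ^ θ j ≤ ν) {F : Set (W → Bool)} (hF : F ∈ Idl θ μ) :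
    #(F ∩ X : Set (W → Bool)) ≤ μ * ν := by
  obtain ⟨G, h1, h2, h3⟩ := hF
  calc #(F ∩ X : Set (W → Bool)) ≤ #(⋃ S : G, (S.1 ∩ X) : Set (W → Bool)) :=
        mk_le_mk_of_subset fun y hy => by
          obtain ⟨S, hS, hy'⟩ := h3 hy.1
          exact mem_iUnion.2 ⟨⟨S, hS⟩, hy', hy.2⟩
    _ ≤ #G * ⨆ S : G, #(S.1 ∩ X : Set (W → Bool)) := mk_iUnion_le _
    _ ≤ μ * ν := by
        gcongr
        refine ciSup_le' fun S => ?_
        obtain ⟨j, hj⟩ := h2 S.1 S.2
        exact (hX j _ hj).le.trans (hν j)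

theorem singleton_small {W : Type} {t : Cardinal.{0}} (ht : t ≠ 0) (x : W → Bool) :
    NoShatter t {x} := by
  intro A hA h
  have : A.Nonempty := by
    rw [nonempty_iff_ne_empty]
    rintro rfl
    exact ht (by rw [← hA]; simp)
  obtain ⟨a, ha⟩ := this
  obtain ⟨y, hy, h⟩ := h fun b => !x b
  have := h a ha
  rw [mem_singleton_iff.1 hy] at this
  cases hxa : x a <;> simp [hxa] at this

theorem small_mem {W J : Type} {θ : J → Cardinal.{0}} {μ : Cardinal.{0}} (h0 : ∃ j, θ j ≠ 0)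
    {Y : Set (W → Bool)} (hY : #Y ≤ μ) : Y ∈ Idl θ μ := by
  obtain ⟨j, hj⟩ := h0
  refine ⟨singleton '' Y, mk_image_le.trans hY, ?_, fun y hy => ⟨{y}, ⟨y, hy, rfl⟩, rfl⟩⟩
  rintro _ ⟨y, -, rfl⟩
  exact ⟨j, singleton_small hj y⟩

theorem cov_eq (W : Type) [Infinite W] (J : Type) (θ : J → Cardinal.{0}) (hJ : #J ≤ #W)
    (hθ : ∀ j, #W ^ ((2 : Cardinal.{0}) ^ θ j) = #W) (h0 : ∃ j, θ j ≠ 0) (μ : Cardinal.{0})
    (h1 : 1 ≤ μ) (h2 : μ < 2 ^ #W) : cov (Idl (W := W) θ μ) = 2 ^ #W := by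
  have hW : ℵ₀ ≤ #W := aleph0_le_mk W
  have hp : ℵ₀ ≤ (2 : Cardinal.{0}) ^ #W := hW.trans (cantor _).le
  have hmem : (2 : Cardinal.{0}) ^ #W ∈
      {c | ∃ A : Set (Set (W → Bool)), A ⊆ Idl θ μ ∧ ⋃₀ A = Set.univ ∧ #A = c} := by
    refine ⟨range singleton, ?_, ?_, ?_⟩
    · rintro _ ⟨x, rfl⟩
      exact small_mem h0 (by simpa using h1)
    · rw [sUnion_range]
      exact iUnion_of_singleton _
    · rw [mk_range_eq _ singleton_injective]
      simp
  refine le_antisymm (csInf_le' hmem) (le_csInf ⟨_, hmem⟩ ?_)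
  rintro c ⟨A, hA, hU, rfl⟩
  obtain ⟨X, hX1, hX2⟩ := exists_family W J θ hJ hθ
  have hν : ∀ j, (2 : Cardinal.{0}) ^ θ j ≤ #W := fun j => by
    refine (cantor _).le.trans ?_
    rw [← hθ j]
    exact power_le_power_right ((natCast_lt_aleph0 (n := 2)).le.trans hW)
  have h3 : (2 : Cardinal.{0}) ^ #W ≤ #A * (μ * #W) := by
    calc (2 : Cardinal.{0}) ^ #W = #X := hX1.symm
      _ ≤ #(⋃ F : A, (F.1 ∩ X) : Set (W → Bool)) := mk_le_mk_of_subset fun y hy => by
          obtain ⟨F, i, j⟩ := (hU ▸ mem_univ y : y ∈ ⋃₀ A)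
          exact mem_iUnion.2 ⟨⟨F, i⟩, j, hy⟩
      _ ≤ #A * ⨆ F : A, #(F.1 ∩ X : Set (W → Bool)) := mk_iUnion_le _
      _ ≤ #A * (μ * #W) := by
          gcongr
          exact ciSup_le' fun F => inter_le hX2 hν (hA F.2)
  by_contra hc
  exact (mul_lt_of_lt hp (not_le.1 hc) (mul_lt_of_lt hp h2 (cantor _))).not_ge h3

theorem not_mem {W J : Type} {θ : J → Cardinal.{0}} {μ : Cardinal.{0}} {X : Set (W → Bool)}
    (hX : ∀ (j : J) (F : Set (W → Bool)), NoShatter (θ j) F → #(F ∩ X : Set (W → Bool)) < 2 ^ θ j)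
    (hμ : ℵ₀ ≤ μ) (hν : ∀ j, 2 ^ θ j ≤ μ) {Y : Set (W → Bool)} (hY : Y ⊆ X)
    (hY' : Order.succ μ ≤ #Y) : Y ∉ Idl θ μ := fun h => by
  have := inter_le hX hν h
  rw [inter_eq_left.2 hY, mul_eq_self hμ] at this
  exact (Order.succ_le_iff.1 hY').not_ge this

theorem add_non (W : Type) [Infinite W] (J : Type) (θ : J → Cardinal.{0}) (hJ : #J ≤ #W)
    (hθ : ∀ j, #W ^ ((2 : Cardinal.{0}) ^ θ j) = #W) (h0 : ∃ j, θ j ≠ 0) (μ : Cardinal.{0})
    (h1 : ℵ₀ ≤ μ) (h2 : μ < 2 ^ #W) (h3 : ∀ j, 2 ^ θ j ≤ μ) :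
    add (Idl (W := W) θ μ) = Order.succ μ ∧ non (Idl (W := W) θ μ) = Order.succ μ := by
  obtain ⟨X, hX1, hX2⟩ := exists_family W J θ hJ hθ
  obtain ⟨Y, hY, hY'⟩ := (le_mk_iff_exists_subset (c := Order.succ μ) (s := X)).1 (by
    rw [hX1]; exact Order.succ_le_of_lt h2)
  have hn := not_mem hX2 h1 h3 hY hY'.ge
  constructor
  · have hm : Order.succ μ ∈
        {c | ∃ A : Set (Set (W → Bool)), A ⊆ Idl θ μ ∧ ⋃₀ A ∉ Idl (W := W) θ μ ∧ #A = c} := by
      refine ⟨singleton '' Y, ?_, ?_, by rw [mk_image_eq singleton_injective, hY']⟩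
      · rintro _ ⟨x, -, rfl⟩
        exact small_mem h0 (by simpa using one_le_aleph0.trans h1)
      · rwa [sUnion_image, biUnion_of_singleton]
    refine le_antisymm (csInf_le' hm) (le_csInf ⟨_, hm⟩ ?_)
    rintro c ⟨A, hA, hA', rfl⟩
    refine Order.succ_le_of_lt (lt_of_not_ge fun hc => hA' ?_)
    have hA2 : ∀ F : A, ∃ G : Set (Set (W → Bool)), #G ≤ μ ∧ (∀ S ∈ G, ∃ j, NoShatter (θ j) S) ∧
        F.1 ⊆ ⋃₀ G := fun F => hA F.2
    choose G g1 g2 g3 using hA2
    refine ⟨⋃ F : A, G F, ?_, ?_, ?_⟩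
    · calc #(⋃ F : A, G F) ≤ #A * ⨆ F : A, #(G F) := mk_iUnion_le _
        _ ≤ μ * μ := by
            gcongr
            exact ciSup_le' fun F => g1 F
        _ = μ := mul_eq_self h1
    · intro S hS
      obtain ⟨F, hF⟩ := mem_iUnion.1 hS
      exact g2 F S hF
    · rintro y ⟨F, hF, hy⟩
      obtain ⟨S, hS, hy⟩ := g3 ⟨F, hF⟩ hy
      exact ⟨S, mem_iUnion.2 ⟨⟨F, hF⟩, hS⟩, hy⟩
  · have hm : Order.succ μ ∈ {c | ∃ Y : Set (W → Bool), Y ∉ Idl θ μ ∧ #Y = c} := ⟨Y, hn, hY'⟩
    refine le_antisymm (csInf_le' hm) (le_csInf ⟨_, hm⟩ ?_)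
    rintro c ⟨Z, hZ, rfl⟩
    exact Order.succ_le_of_lt (lt_of_not_ge fun hc => hZ (small_mem h0 hc))

/-- (1) Let `W` be infinite and let `θ j`, for at most `|W|` many `j`, be cardinals with
`|W| ^ (2 ^ θ j) = |W|`.  There is a family `X` of `2 ^ |W|` functions such that any family which
shatters no set of size `θ j` contains fewer than `2 ^ θ j` members of `X`.  For `1 ≤ μ < 2 ^ |W|`
the ideal of the unions of at most `μ` such families has covering number `2 ^ |W|`, and its
additivity and uniformity are `μ⁺` if `μ` is infinite and `2 ^ θ j ≤ μ` for all `j`.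
(2) The hypotheses hold for the finite cardinals and every infinite `W`.  (3) In particular
`sd(ℵ₀, ℵ₁) = 2 ^ ℵ₁`, so `cf (2 ^ ℵ₁) ≤ sd(ℵ₀, ℵ₁)`. -/
theorem result :
    (∀ (W : Type) [Infinite W] (J : Type) (θ : J → Cardinal.{0}), #J ≤ #W →
      (∀ j, #W ^ ((2 : Cardinal.{0}) ^ θ j) = #W) →
      (∃ X : Set (W → Bool), #X = 2 ^ #W ∧ ∀ (j : J) (F : Set (W → Bool)),
        NoShatter (θ j) F → #(F ∩ X : Set (W → Bool)) < 2 ^ θ j) ∧
      ((∃ j, θ j ≠ 0) → ∀ μ : Cardinal.{0}, 1 ≤ μ → μ < 2 ^ #W →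
        cov (Idl (W := W) θ μ) = 2 ^ #W ∧
        (ℵ₀ ≤ μ → (∀ j, 2 ^ θ j ≤ μ) →
          add (Idl (W := W) θ μ) = Order.succ μ ∧ non (Idl (W := W) θ μ) = Order.succ μ))) ∧
    (∀ (W : Type) [Infinite W] (μ : Cardinal.{0}), ℵ₀ ≤ μ → μ < 2 ^ #W →
      cov (Idl (W := W) (fun n : ℕ => (n : Cardinal.{0})) μ) = 2 ^ #W ∧
      add (Idl (W := W) (fun n : ℕ => (n : Cardinal.{0})) μ) = Order.succ μ ∧
      non (Idl (W := W) (fun n : ℕ => (n : Cardinal.{0})) μ) = Order.succ μ) ∧
    ∀ W : Type, #W = ℵ₁ →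
      cov (Idl (W := W) (fun n : ℕ => (n : Cardinal.{0})) ℵ₀) = 2 ^ (ℵ₁ : Cardinal.{0}) ∧
      ((2 : Cardinal.{0}) ^ (ℵ₁ : Cardinal.{0})).ord.cof ≤
        cov (Idl (W := W) (fun n : ℕ => (n : Cardinal.{0})) ℵ₀) := by
  have gen : ∀ (W : Type) [Infinite W] (μ : Cardinal.{0}), ℵ₀ ≤ μ → μ < 2 ^ #W →
      cov (Idl (W := W) (fun n : ℕ => (n : Cardinal.{0})) μ) = 2 ^ #W ∧
      add (Idl (W := W) (fun n : ℕ => (n : Cardinal.{0})) μ) = Order.succ μ ∧
      non (Idl (W := W) (fun n : ℕ => (n : Cardinal.{0})) μ) = Order.succ μ := by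
    intro W _ μ h1 h2
    have hJ : #ℕ ≤ #W := by
      rw [mk_nat]
      exact aleph0_le_mk W
    have hθ : ∀ n : ℕ, #W ^ ((2 : Cardinal.{0}) ^ (n : Cardinal.{0})) = #W := fun n => by
      have : ((2 : Cardinal.{0}) ^ (n : Cardinal.{0})) = ((2 ^ n : ℕ) : Cardinal.{0}) := by
        push_cast
        rfl
      rw [this]
      exact power_nat_eq (aleph0_le_mk W) Nat.one_le_two_pow
    have h0 : ∃ n : ℕ, (n : Cardinal.{0}) ≠ 0 := ⟨1, by simp⟩
    have h3 : ∀ n : ℕ, (2 : Cardinal.{0}) ^ (n : Cardinal.{0}) ≤ μ := fun n => by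
      have : ((2 : Cardinal.{0}) ^ (n : Cardinal.{0})) = ((2 ^ n : ℕ) : Cardinal.{0}) := by
        push_cast
        rfl
      rw [this]
      exact natCast_lt_aleph0.le.trans h1
    exact ⟨cov_eq W ℕ _ hJ hθ h0 μ (one_le_aleph0.trans h1) h2,
      add_non W ℕ _ hJ hθ h0 μ h1 h2 h3⟩
  refine ⟨fun W _ J θ hJ hθ => ⟨exists_family W J θ hJ hθ, fun h0 μ h1 h2 =>
    ⟨cov_eq W J θ hJ hθ h0 μ h1 h2, fun h3 h4 => add_non W J θ hJ hθ h0 μ h3 h2 h4⟩⟩, gen,
    fun W hW => ?_⟩
  have : Infinite W := infinite_iff.mpr (hW ▸ aleph0_le_aleph 1)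
  have h := (gen W ℵ₀ le_rfl ((aleph0_le_mk W).trans_lt (cantor _))).1
  rw [hW] at h
  refine ⟨h, ?_⟩
  rw [h]
  exact (Ordinal.cof_le_card _).trans_eq (card_ord _)

end Pool.Agent.Results.MP_344d3d_lc.CompleteIdeals
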